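import Pool.Agent.R599.MC.Paths

/-!
# The level Sigma-3 of the alternation hierarchy does not have Craig interpolation
-/

namespace Pool.Agent.Results.MP_3aa27d_lc.SigmaThreeNoCraig

open Pool.Agent.R599.MC

/-- Adam wins by the strategy marked by letter `3`. -/
def phi : Mu := .and (clo (.lit 0 false) (.lit 0 true) (.lit 3 true))
  (neg (pathG (.lit 3 true) (.lit 2 false) (.lit 1 true)))

/-- Eve does not win by the strategy marked by letter `4`. -/
def psi : Mu := .or (neg (clo (.lit 0 true) (.lit 0 false) (.lit 4 true)))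
  (.or (pathG (.lit 4 true) .top (.lit 2 true))
    (pathG (.lit 4 true) (.and (.lit 1 false) (.lit 2 false)) .top))

theorem ff (φ : Mu) (h : FixFree φ) (b : Bool) : Level b 0 φ := .base h

theorem phi_level : Level true 3 phi := by
  refine .and ?_ ?_
  · refine .up (b' := false) (.up (b' := false) ?_)
    refine .nu 0 (.up (b' := false) (.base ?_))
    simp [FixFree]
  · have h : neg (pathG (.lit 3 true) (.lit 2 false) (.lit 1 true)) =
        subst 3 (neg (innerG (.lit 3 true) (.lit 2 false) (.lit 1 true)))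
          (.nu 0 (.or (.lit 3 false) (.and (.box (.var 0)) (.var 3)))) := by
      simp [neg, pathG, innerG, subst]
    rw [h]
    refine .up (b' := true) (.sub 3 ?_ ?_ ?_ ?_)
    · refine .up (b' := false) (.nu 0 (.up (b' := false) (.base ?_)))
      simp [FixFree]
    · simp only [innerG, neg]
      refine .mu 1 (.up (b' := false) (.nu 2 (.up (b' := false) (.base ?_))))
      simp [FixFree]
    · simp [Free]
    · simp [NoCapture, Free, neg, innerG]

theorem psi_level : Level true 3 psi := by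
  have hG : ∀ s l h : Mu, FixFree s → FixFree l → FixFree h → Level true 3 (pathG s l h) := by
    intro s l h hs hl hh
    refine .mu 0 (.and (.up (b' := true) (.up (b' := true) (.up (b' := true) (.base hs))))
      (.or (.dia (.up (b' := true) (.up (b' := true) (.up (b' := true) (.base trivial))))) ?_))
    refine .up (b' := false) (.nu 1 (.up (b' := true) (.mu 2 (.up (b' := true) (.base ?_)))))
    simp [FixFree, hs, hl, hh]
  refine .or ?_ (.or (hG _ _ _ trivial trivial trivial) (hG _ _ _ trivial ⟨trivial, trivial⟩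
    trivial))
  simp only [clo, neg]
  refine .up (b' := true) (.up (b' := true) (.mu 0 (.up (b' := true) (.base ?_))))
  simp [FixFree]

section

variable {W : Type} {R : W → W → Prop} {V : ℕ → Set W}

theorem sat_lit (p : ℕ) (b : Bool) (ρ : ℕ → Set W) :
    sat R V (.lit p b) ρ = {w | w ∈ V p ↔ b = true} := rfl

/-- The implication is valid. -/
theorem valid : ValidImp phi psi := by
  intro W R V ρ w hw
  by_contra hcon
  obtain ⟨h1, h2⟩ := hw
  simp only [psi, sat, Set.mem_union, not_or] at hcon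
  obtain ⟨h3, h4, h5⟩ := hcon
  rw [sat_neg] at h2 h3
  simp only [Set.mem_compl_iff, not_not] at h2 h3
  rw [pathG_iff (S := {v | v ∈ V 3 ↔ true = true}) (L := {v | v ∈ V 2 ↔ false = true})
    (H := {v | v ∈ V 1 ↔ true = true}) (fun _ => rfl) (fun _ => rfl) (fun _ => rfl)] at h2
  rw [pathG_iff (S := {v | v ∈ V 4 ↔ true = true}) (L := Set.univ)
    (H := {v | v ∈ V 2 ↔ true = true}) (fun _ => rfl) (fun _ => rfl) (fun _ => rfl)] at h4
  rw [pathG_iff (S := {v | v ∈ V 4 ↔ true = true})
    (L := {v | v ∈ V 1 ↔ false = true} ∩ {v | v ∈ V 2 ↔ false = true})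
    (H := Set.univ) (fun _ => rfl) (fun _ => rfl) (fun _ => rfl)] at h5
  set A := sat R V (clo (.lit 0 false) (.lit 0 true) (.lit 3 true)) ρ with hA
  set E := sat R V (clo (.lit 0 true) (.lit 0 false) (.lit 4 true)) (fun x => (ρ x)ᶜ) with hE
  have hA' : ∀ v ∈ A, v ∈ V 3 ∧ ((v ∉ V 0 ∧ ∃ u, R v u ∧ u ∈ A) ∨
      (v ∈ V 0 ∧ ∀ u, R v u → u ∈ A)) := by
    intro v hv
    have h : v ∈ sat R V (.and (.lit 3 true) (.or (.and (.lit 0 false) (.dia (.var 0)))
      (.and (.lit 0 true) (.box (.var 0))))) (Function.update ρ 0 A) := nu_postfix _ _ _ hv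
    simpa [sat] using h
  have hE' : ∀ v ∈ E, v ∈ V 4 ∧ ((v ∈ V 0 ∧ ∃ u, R v u ∧ u ∈ E) ∨
      (v ∉ V 0 ∧ ∀ u, R v u → u ∈ E)) := by
    intro v hv
    have h : v ∈ sat R V (.and (.lit 4 true) (.or (.and (.lit 0 true) (.dia (.var 0)))
      (.and (.lit 0 false) (.box (.var 0))))) (Function.update (fun x => (ρ x)ᶜ) 0 E) :=
      nu_postfix _ _ _ hv
    simpa [sat] using h
  have hnx : ∀ p : {v // v ∈ A ∧ v ∈ E}, ∃ p' : {v // v ∈ A ∧ v ∈ E}, R p.1 p'.1 := by
    rintro ⟨v, hvA, hvE⟩
    obtain ⟨_, ⟨a1, u, a2, a3⟩ | ⟨a1, a2⟩⟩ := hA' v hvA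
    · obtain ⟨_, ⟨b1, _⟩ | ⟨_, b2⟩⟩ := hE' v hvE
      · exact absurd b1 a1
      · exact ⟨⟨u, a3, b2 u a2⟩, a2⟩
    · obtain ⟨_, ⟨_, u, b2, b3⟩ | ⟨b1, _⟩⟩ := hE' v hvE
      · exact ⟨⟨u, a2 u b2, b3⟩, b2⟩
      · exact absurd a1 b1
  choose nx hnx' using hnx
  let f : ℕ → {v // v ∈ A ∧ v ∈ E} := fun n => Nat.rec ⟨w, h1, h3⟩ (fun _ p => nx p) n
  have hf : ∀ n, R (f n).1 (f (n + 1)).1 := fun n => hnx' (f n)
  have hf3 : ∀ n, (f n).1 ∈ V 3 := fun n => (hA' _ (f n).2.1).1
  have hf4 : ∀ n, (f n).1 ∈ V 4 := fun n => (hE' _ (f n).2.2).1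
  by_cases c1 : ∀ m, ∃ n ≥ m, (f n).1 ∈ V 2
  · exact h4 ⟨fun n => (f n).1, rfl, hf, fun n => by simpa using hf4 n,
      ⟨0, fun _ _ => trivial⟩, fun m => by simpa using c1 m⟩
  · push Not at c1
    obtain ⟨m1, hm1⟩ := c1
    by_cases c2 : ∀ m, ∃ n ≥ m, (f n).1 ∈ V 1
    · exact h2 ⟨fun n => (f n).1, rfl, hf, fun n => by simpa using hf3 n,
        ⟨m1, fun n hn => by simpa using hm1 n hn⟩, fun m => by simpa using c2 m⟩
    · push Not at c2
      obtain ⟨m2, hm2⟩ := c2
      exact h5 ⟨fun n => (f n).1, rfl, hf, fun n => by simpa using hf4 n,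
        ⟨max m1 m2, fun n hn => ⟨by simpa using hm2 n (le_trans (le_max_right _ _) hn),
          by simpa using hm1 n (le_trans (le_max_left _ _) hn)⟩⟩,
        fun m => ⟨m, le_refl _, trivial⟩⟩

end

theorem phi_letters : phi.letters = {0, 1, 2, 3} := by
  ext n
  simp [phi, clo, pathG, innerG, neg, Mu.letters]
  omega

theorem psi_letters : psi.letters = {0, 1, 2, 4} := by
  ext n
  simp [psi, clo, pathG, innerG, neg, Mu.letters]
  omega

/-- No formula of the level over the common letters is an interpolant. -/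
theorem no_interpolant (θ : Mu) (hθ : Level true 3 θ)
    (hlet : θ.letters ⊆ phi.letters ∩ psi.letters) (h1 : ValidImp phi θ)
    (h2 : ValidImp θ psi) : False := by
  have hlet' : ∀ p ∈ θ.letters, p ≠ 3 ∧ p ≠ 4 := by
    intro p hp
    have h := hlet hp
    rw [phi_letters, psi_letters] at h
    simp at h
    omega
  obtain ⟨A, hpr, hA⟩ := rep_level hθ 1 3 (by omega) (Or.inr ⟨by decide, by omega⟩)
  by_cases hsat : [] ∈ sat TR (dV A) θ (fun _ => ∅)
  · -- Eve wins
    obtain ⟨S, hS⟩ := exists_marking hpr (hA (dV A) (fun _ => ∅) true [] (by simpa using hsat))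
    let V' : ℕ → Set Wd := Function.update (dV A) 4 S
    have e : ∀ p, p ≠ 4 → V' p = dV A p := fun p hp => Function.update_of_ne hp _ _
    have e4 : V' 4 = S := Function.update_self _ _ _
    have hsat' : [] ∈ sat TR V' θ (fun _ => ∅) := by
      rw [sat_congr θ (V' := dV A) (ρ' := fun _ => ∅) (fun p hp => e p (hlet' p hp).2)
        (fun _ _ => rfl)]
      exact hsat
    have h3 := h2 Wd TR V' _ [] hsat'
    simp only [psi, sat, Set.mem_union] at h3
    rcases h3 with h3 | h3 | h3
    · rw [sat_neg] at h3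
      refine h3 ⟨S, ?_, hS.nil⟩
      intro u hu
      by_cases h0 : u ∈ dV A 0
      · obtain ⟨d, hd⟩ := hS.ex u hu (by simpa using h0)
        refine ⟨?_, Or.inl ⟨?_, d :: u, ⟨d, rfl⟩, ?_⟩⟩
        · simp only [sat, e4]; simpa using hu
        · simp only [sat, e 0 (by decide)]; simpa using h0
        · simpa [sat] using hd
      · have hd := hS.all u hu (by simpa using h0)
        refine ⟨?_, Or.inr ⟨?_, ?_⟩⟩
        · simp only [sat, e4]; simpa using hu
        · simp only [sat, e 0 (by decide)]; simpa using h0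
        · rintro v ⟨d, rfl⟩
          simpa [sat] using hd d
    · rw [pathG_iff (S := S) (L := Set.univ) (H := dV A 2) (fun _ => by simp [sat, e4])
        (fun _ => rfl) (fun _ => by simp [sat, e 2 (by decide)])] at h3
      obtain ⟨π, g0, g1, g2, _, g4⟩ := h3
      obtain ⟨k, k1, ⟨n0, k2⟩, k3⟩ := hS.good π g0 g1 g2
      obtain ⟨n, hn, hn'⟩ := g4 n0
      have h4 := k2 n hn
      simp only [lev, hn', if_true] at h4
      obtain ⟨m, _, hm'⟩ := k3 0
      simp only at hm'
      simp only [iff_true] at k1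
      have : lev (dV A) (π m) ≤ 3 := by unfold lev; split <;> [omega; (split <;> omega)]
      omega
    · rw [pathG_iff (S := S) (L := (dV A 1)ᶜ ∩ (dV A 2)ᶜ) (H := Set.univ)
        (fun _ => by simp [sat, e4])
        (fun _ => by
          ext v
          simp [sat, e 1 (by decide), e 2 (by decide)]) (fun _ => rfl)] at h3
      obtain ⟨π, g0, g1, g2, ⟨m, g3⟩, _⟩ := h3
      obtain ⟨k, k1, ⟨n0, k2⟩, k3⟩ := hS.good π g0 g1 g2
      obtain ⟨n, hn, hn'⟩ := k3 m
      have h4 := g3 n hn
      simp only [lev, if_neg h4.2, if_neg h4.1] at hn'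
      simp only [iff_true] at k1
      omega
  · -- Adam wins
    obtain ⟨S, hS⟩ := exists_marking hpr (hA (dV A) (fun _ => ∅) false []
      (by simpa using hsat))
    let V' : ℕ → Set Wd := Function.update (dV A) 3 S
    have e : ∀ p, p ≠ 3 → V' p = dV A p := fun p hp => Function.update_of_ne hp _ _
    have e3 : V' 3 = S := Function.update_self _ _ _
    have hphi : [] ∈ sat TR V' phi (fun _ => ∅) := by
      refine ⟨⟨S, ?_, hS.nil⟩, ?_⟩
      · intro u hu
        by_cases h0 : u ∈ dV A 0
        · have hd := hS.all u hu (by simpa using h0)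
          refine ⟨?_, Or.inr ⟨?_, ?_⟩⟩
          · simp only [sat, e3]; simpa using hu
          · simp only [sat, e 0 (by decide)]; simpa using h0
          · rintro v ⟨d, rfl⟩
            simpa [sat] using hd d
        · obtain ⟨d, hd⟩ := hS.ex u hu (by simpa using h0)
          refine ⟨?_, Or.inl ⟨?_, d :: u, ⟨d, rfl⟩, ?_⟩⟩
          · simp only [sat, e3]; simpa using hu
          · simp only [sat, e 0 (by decide)]; simpa using h0
          · simpa [sat] using hd
      · rw [sat_neg]
        intro h3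
        rw [pathG_iff (S := S) (L := (dV A 2)ᶜ) (H := dV A 1) (fun _ => by simp [sat, e3])
          (fun _ => by
            ext v
            simp [sat, e 2 (by decide)]) (fun _ => by simp [sat, e 1 (by decide)])] at h3
        obtain ⟨π, g0, g1, g2, ⟨m, g3⟩, g4⟩ := h3
        obtain ⟨k, k1, ⟨n0, k2⟩, k3⟩ := hS.good π g0 g1 g2
        obtain ⟨n, hn, hn'⟩ := g4 (max m n0)
        have h4 := k2 n (le_trans (le_max_right _ _) hn)
        have h5 := g3 n (le_trans (le_max_left _ _) hn)
        simp only [lev, if_neg h5, if_pos hn'] at h4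
        obtain ⟨i, hi, hi'⟩ := k3 m
        simp only at hi'
        have h6 := g3 i hi
        simp only [Bool.false_eq_true, iff_false] at k1
        have : lev (dV A) (π i) ≤ 2 := by
          unfold lev
          rw [if_neg h6]
          split <;> omega
        omega
    have h3 := h1 Wd TR V' _ [] hphi
    rw [sat_congr θ (V' := dV A) (ρ' := fun _ => ∅) (fun p hp => e p (hlet' p hp).1)
      (fun _ _ => rfl)] at h3
    exact hsat h3

/-- The level Sigma-3 of the alternation hierarchy of the modal mu-calculus does not have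
Craig interpolation. -/
theorem result : ¬ Craig (Level true 3) := by
  intro h
  obtain ⟨θ, hθ, hlet, h1, h2⟩ := h phi psi phi_level psi_level valid
  exact no_interpolant θ hθ hlet h1 h2

end Pool.Agent.Results.MP_3aa27d_lc.SigmaThreeNoCraig
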